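import Pool.Agent.Helper802.MainProof

/-!
# A transitive diffeomorphism of the three-torus with a large centralizer

Adaptation of the proof of `main_theorem` in `Pool/Agent/Helper802/MainProof.lean`: the conclusion
is stated for all groups of diffeomorphisms between a small group and `Diff^∞(T³)`.
-/

set_option autoImplicit false

open scoped Manifold ContDiff Topology
open Set Filter MeasureTheory

noncomputable section

namespace Pool.Agent.H324.TC

open Pool.Agent.Helper802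

/-- The commutator of `g` and `s`. -/
def cm {G : Type*} [Group G] (s g : G) : G := g * s * g⁻¹ * s⁻¹

theorem cm_step {G : Type*} [Group G] (s : G) (j : ℕ) {a b : G}
    (h : a⁻¹ * b ∈ Subgroup.upperCentralSeries G (j + 1)) :
    (cm s a)⁻¹ * cm s b ∈ Subgroup.upperCentralSeries G j := by
  obtain ⟨z, hz⟩ : ∃ z, z = a⁻¹ * b := ⟨_, rfl⟩
  have hb : b = a * z := by rw [hz]; group
  rw [← hz, Subgroup.mem_upperCentralSeries_succ_iff] at h
  have hw : z * s * z⁻¹ * s⁻¹ ∈ Subgroup.upperCentralSeries G j := h s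
  have h1 : (cm s a)⁻¹ * cm s b = (s * a * s⁻¹) * (z * s * z⁻¹ * s⁻¹) * (s * a * s⁻¹)⁻¹ := by
    rw [hb]; unfold cm; group
  rw [h1]
  exact (inferInstance : (Subgroup.upperCentralSeries G j).Normal).conj_mem _ hw _

theorem cm_iter {G : Type*} [Group G] (s : G) : ∀ (k : ℕ) {a b : G},
    a⁻¹ * b ∈ Subgroup.upperCentralSeries G k → (cm s)^[k] a = (cm s)^[k] b
  | 0, a, b, h => by
      rw [Subgroup.upperCentralSeries_zero, Subgroup.mem_bot] at h
      simpa using (inv_mul_eq_one.1 h)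
  | k + 1, a, b, h => by
      rw [Function.iterate_succ_apply, Function.iterate_succ_apply]
      exact cm_iter s k (cm_step s k h)

/-- The abstract obstruction to `G ⧸ A` being locally compact, for `A` in the `k`-th term of the
upper central series. -/
theorem commutators_relcompact' {G : Type*} [Group G] [TopologicalSpace G] [IsTopologicalGroup G]
    (A : Subgroup G) [A.Normal] (k : ℕ) (hA : A ≤ Subgroup.upperCentralSeries G k) (s : G)
    [LocallyCompactSpace (G ⧸ A)] (γ : ℕ → G) (N : ℕ → ℕ) (hN : ∀ n, 0 < N n)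
    (hfin : ∀ n, γ n ^ N n = 1) (hinc : ∀ n, γ n ∈ Subgroup.zpowers (γ (n + 1)))
    (hlim : Tendsto γ atTop (𝓝 1)) :
    ∃ K : Set G, IsCompact K ∧ ∀ n, ∀ g ∈ Subgroup.zpowers (γ n), (cm s)^[k] g ∈ K := by
  have hπc : Continuous (QuotientGroup.mk : G → G ⧸ A) := continuous_quotient_mk'
  obtain ⟨X, hX, hX'⟩ := relcompact_of_generators (B := G ⧸ A) (fun n => (γ n : G ⧸ A)) N hN
    (fun n => by rw [← QuotientGroup.mk_pow, hfin n]; rfl)
    (fun n => by
      obtain ⟨k, hk⟩ := Subgroup.mem_zpowers_iff.1 (hinc n)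
      refine Subgroup.mem_zpowers_iff.2 ⟨k, ?_⟩
      rw [← QuotientGroup.mk_zpow, hk])
    (by
      have := (hπc.tendsto 1).comp hlim
      exact this)
  have hlift : ∀ a b : G, (QuotientGroup.leftRel A) a b → (cm s)^[k] a = (cm s)^[k] b := by
    intro a b hab
    rw [QuotientGroup.leftRel_apply] at hab
    exact cm_iter s k (hA hab)
  let c : G ⧸ A → G := Quotient.lift ((cm s)^[k]) hlift
  have hc : Continuous c := by
    apply Continuous.quotient_lift
    have h1 : Continuous (cm s) := by unfold cm; fun_prop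
    exact h1.iterate k
  refine ⟨c '' X, hX.image hc, fun n g hg => ⟨(g : G ⧸ A), hX' n _ ?_, rfl⟩⟩
  obtain ⟨k, hk⟩ := Subgroup.mem_zpowers_iff.1 hg
  refine Subgroup.mem_zpowers_iff.2 ⟨k, ?_⟩
  rw [← QuotientGroup.mk_zpow, hk]

/-- A transitive diffeomorphism of the three-torus, of the form of a skew product over a circle
rotation, an involution `σ` commuting with it and a subgroup `P` of its centralizer that is the
union of an increasing sequence of finite cyclic groups and is inverted by `σ`, such that no group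
of diffeomorphisms `Z` containing `P` and `σ` has a locally compact quotient by a normal subgroup
contained in a term of the upper central series. -/
theorem main_theorem' : ∃ (f : T3 ≃ₘ⟮I3, I3⟯ T3) (θ : Circle) (a : Circle → ℝ)
    (b : Circle × Circle → ℝ) (ha : Smooth1 a) (hb : Smooth2 b) (γ : ℕ → (T3 ≃ₘ⟮I3, I3⟯ T3)),
    f = skewDiff θ a b ha hb ∧ IsTransitive f ∧
    (∀ n, IsOfFinOrder (γ n)) ∧ (∀ n, γ n ∈ Subgroup.zpowers (γ (n + 1))) ∧
    (∀ n, Commute (γ n) f) ∧ Commute sigmaDiff f ∧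
    (∀ n, sigmaDiff * γ n * sigmaDiff⁻¹ = (γ n)⁻¹) ∧
    ∀ Z : Subgroup (T3 ≃ₘ⟮I3, I3⟯ T3), sigmaDiff ∈ Z → (∀ n, γ n ∈ Z) →
      ∀ (A : Subgroup Z) (_ : A.Normal) (k : ℕ), A ≤ Subgroup.upperCentralSeries Z k →
        ¬ LocallyCompactSpace (Z ⧸ A) := by
  -- neighbourhood basis
  obtain ⟨W, hWb⟩ := (𝓝 (1 : T3 ≃ₘ⟮I3, I3⟯ T3)).exists_antitone_basis
  have hW : ∀ n, W n ∈ 𝓝 (1 : T3 ≃ₘ⟮I3, I3⟯ T3) := fun n => hWb.toHasBasis.mem_of_mem trivial
  choose nxt hnxt using exists_next W hW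
  let s : ℕ → Stage := fun n => Nat.rec stage0 (fun n s => nxt n s) n
  have hs : ∀ n, Next W n (s n) (s (n + 1)) := fun n => hnxt n (s n)
  clear_value s
  -- limits
  have hgeo : Summable fun n : ℕ => ((1 : ℝ) / 2) ^ n := summable_geometric_two
  obtain ⟨t, ht⟩ : ∃ t, Tendsto (fun n => (s n).t) atTop (𝓝 t) := by
    apply cauchySeq_tendsto_of_complete
    apply cauchySeq_of_summable_dist
    refine Summable.of_nonneg_of_le (fun n => dist_nonneg) (fun n => ?_) hgeo
    rw [dist_comm, Real.dist_eq]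
    exact (hs n).close_t
  obtain ⟨A, hA, hAt⟩ := exists_smooth_limit (fun n (r : ℝ) => aFun (s n).G (s n).t (e r))
    (fun n => aFun_lift_smooth (s n).hG _ _ contDiff_const contDiff_id)
    (fun n k hk y => (hs n).close_a k hk y)
  obtain ⟨B, hB, hBt⟩ := exists_smooth_limit
    (fun n (r : ℝ × ℝ) => bFun (s n).G (s n).U (s n).t (e r.1, e r.2))
    (fun n => bFun_lift_smooth (s n).hG (s n).hU _ _ _ contDiff_const contDiff_fst contDiff_snd)
    (fun n k hk y => (hs n).close_b k hk y)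
  have ha_ex : ∀ x : Circle, ∃ l, Tendsto (fun n => aFun (s n).G (s n).t x) atTop (𝓝 l) := by
    intro x
    obtain ⟨r, rfl⟩ := e_surj x
    exact ⟨_, hAt r⟩
  have hb_ex : ∀ y : Circle × Circle,
      ∃ l, Tendsto (fun n => bFun (s n).G (s n).U (s n).t y) atTop (𝓝 l) := by
    rintro ⟨x, p⟩
    obtain ⟨r, rfl⟩ := e_surj x
    obtain ⟨q, rfl⟩ := e_surj p
    exact ⟨_, hBt (r, q)⟩
  choose a ha using ha_ex
  choose b hb using hb_ex
  have hsa : Smooth1 a := by
    apply smooth1_of_lift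
    have : (fun r : ℝ => a (e r)) = A := by
      funext r
      exact tendsto_nhds_unique (ha (e r)) (hAt r)
    rw [this]; exact hA
  have hsb : Smooth2 b := by
    apply smooth2_of_lift
    have : (fun r : ℝ × ℝ => b (e r.1, e r.2)) = B := by
      funext r
      exact tendsto_nhds_unique (hb (e r.1, e r.2)) (hBt r)
    rw [this]; exact hB
  set f : T3 ≃ₘ⟮I3, I3⟯ T3 := skewDiff (e t) a b hsa hsb with hf
  have hlim : ∀ y, Tendsto (fun n => (s n).fD y) atTop (𝓝 (f y)) := by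
    rintro ⟨x, p, z⟩
    have h1 : Tendsto (fun n => e (s n).t) atTop (𝓝 (e t)) :=
      (continuous_e.tendsto t).comp ht
    have h2 : Tendsto (fun n => e (aFun (s n).G (s n).t x)) atTop (𝓝 (e (a x))) :=
      (continuous_e.tendsto _).comp (ha x)
    have h3 : Tendsto (fun n => e (bFun (s n).G (s n).U (s n).t (x, p))) atTop
        (𝓝 (e (b (x, p)))) := (continuous_e.tendsto _).comp (hb (x, p))
    exact (h1.const_mul x).prodMk_nhds ((h2.const_mul p).prodMk_nhds (h3.const_mul z))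
  -- distance estimates
  have hdist : ∀ n y, dist (f y) ((s n).f y) ≤ (s n).η := by
    intro n y
    have hk : ∀ k, dist ((s (n + k)).f y) ((s n).f y) ≤ (s n).η - (s (n + k)).η := by
      intro k
      induction k with
      | zero => simp
      | succ k ih =>
        have h1 := (hs (n + k)).close_f y
        have h2 := (hs (n + k)).eta
        have h3 := dist_triangle ((s (n + (k + 1))).f y) ((s (n + k)).f y) ((s n).f y)
        have h4 : n + (k + 1) = n + k + 1 := rfl
        rw [h4] at h3 ⊢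
        linarith
    have hk' : ∀ k, dist ((s (n + k)).fD y) ((s n).f y) ≤ (s n).η := fun k =>
      (hk k).trans (by linarith [(s (n + k)).hη])
    have hl : Tendsto (fun k => (s (n + k)).fD y) atTop (𝓝 (f y)) :=
      (hlim y).comp (tendsto_atTop_mono (fun k => Nat.le_add_left k n) tendsto_id)
    exact le_of_tendsto (hl.dist tendsto_const_nhds) (Eventually.of_forall hk')
  -- transitivity
  have hpow : ∀ (m : ℕ) (y : T3), (f ^ m) y = f^[m] y := by
    intro m
    induction m with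
    | zero => intro y; rfl
    | succ m ih =>
      intro y
      rw [pow_succ, diff_mul_apply, ih, Function.iterate_succ_apply]
  have htrans : IsTransitive f := by
    refine ⟨(1, 1, 1), ?_⟩
    rw [Metric.dense_iff]
    intro y r hr
    obtain ⟨n, hn⟩ := exists_nat_one_div_lt hr
    obtain ⟨m, hm⟩ := (hs n).dense f (fun y => hdist (n + 1) y) y
    refine ⟨(f ^ (m : ℤ)) (1, 1, 1), ?_, ⟨(m : ℤ), rfl⟩⟩
    rw [Metric.mem_ball, zpow_natCast, hpow]
    exact hm.trans hn
  -- generators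
  have hγinc : ∀ n, (s n).γ ∈ Subgroup.zpowers (s (n + 1)).γ := by
    intro n
    rw [(hs n).rot_eq]
    exact (hs n).mem_zpowers _ (s n).hN ((dvd_mul_left _ _).trans (hs n).dvd)
  have hmono : Monotone fun n => Subgroup.zpowers (s n).γ := by
    apply monotone_nat_of_le_succ
    intro n
    rw [Subgroup.zpowers_le]
    exact hγinc n
  have hcomm_n : ∀ m n, m ≤ n → Commute (s m).γ (s n).fD := by
    intro m n hmn
    have h1 : (s m).γ ∈ Subgroup.zpowers (s n).γ := hmono hmn (Subgroup.mem_zpowers _)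
    obtain ⟨k, hk⟩ := Subgroup.mem_zpowers_iff.1 h1
    rw [← hk]
    exact (s n).commute.zpow_left k
  -- passing to the limit
  have hpass : ∀ g : T3 ≃ₘ⟮I3, I3⟯ T3, (∀ᶠ n in atTop, Commute g (s n).fD) → Commute g f := by
    intro g hg
    apply Diffeomorph.ext
    intro y
    rw [diff_mul_apply, diff_mul_apply]
    have h1 : Tendsto (fun n => g ((s n).fD y)) atTop (𝓝 (g (f y))) :=
      (g.continuous.tendsto _).comp (hlim y)
    have h2 : Tendsto (fun n => (s n).fD (g y)) atTop (𝓝 (f (g y))) := hlim (g y)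
    refine tendsto_nhds_unique h1 (h2.congr' ?_)
    filter_upwards [hg] with n hn
    have := congrArg (fun F : T3 ≃ₘ⟮I3, I3⟯ T3 => F y) hn.eq
    exact this.symm
  have hγf : ∀ m, Commute (s m).γ f := fun m =>
    hpass _ (eventually_atTop.2 ⟨m, fun n hn => hcomm_n m n hn⟩)
  have hσf : Commute sigmaDiff f := hpass _ (Eventually.of_forall fun n => (s n).commute_sigma)
  refine ⟨f, e t, a, b, hsa, hsb, fun n => (s n).γ, hf, htrans, fun n =>
    isOfFinOrder_iff_pow_eq_one.2 ⟨(s n).N, (s n).hN, (s n).γ_pow⟩, hγinc, hγf, hσf,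
    fun n => sigma_rot (s n).U (s n).hU (s n).symU _, ?_⟩
  intro Z hSZ hΓZ A₀ hnorm k₀ hcen hQlc
  let Γ : ℕ → Z := fun n => ⟨(s n).γ, hΓZ n⟩
  let S : Z := ⟨sigmaDiff, hSZ⟩
  have hΓfin : ∀ n, Γ n ^ (s n).N = 1 := by
    intro n
    apply Subtype.ext
    exact (s n).γ_pow
  have hΓinc : ∀ n, Γ n ∈ Subgroup.zpowers (Γ (n + 1)) := by
    intro n
    obtain ⟨k, hk⟩ := Subgroup.mem_zpowers_iff.1 (hγinc n)
    refine Subgroup.mem_zpowers_iff.2 ⟨k, ?_⟩
    apply Subtype.ext
    simpa using hk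
  have hγlim : Tendsto (fun n => (s n).γ) atTop (𝓝 1) := by
    rw [← tendsto_add_atTop_iff_nat 1]
    exact hWb.tendsto (fun n => (hs n).near_one)
  have hΓlim : Tendsto Γ atTop (𝓝 1) := by
    rw [nhds_subtype_eq_comap, tendsto_comap_iff]
    exact hγlim
  obtain ⟨K, hKc, hK⟩ := commutators_relcompact' A₀ k₀ hcen S Γ (fun n => (s n).N) (fun n => (s n).hN)
    hΓfin hΓinc hΓlim
  -- commutators with `σ` are squares
  have hcm : ∀ n, ∀ g ∈ Subgroup.zpowers (Γ n), cm S g = g * g := by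
    intro n g hg
    obtain ⟨i, rfl⟩ := Subgroup.mem_zpowers_iff.1 hg
    have h1 : S * Γ n * S⁻¹ = (Γ n)⁻¹ := by
      apply Subtype.ext
      exact sigma_rot (s n).U (s n).hU (s n).symU _
    have h2 : S * (Γ n ^ i)⁻¹ * S⁻¹ = Γ n ^ i := by
      rw [← zpow_neg, ← conj_zpow, h1, inv_zpow', neg_neg]
    calc cm S (Γ n ^ i) = Γ n ^ i * (S * (Γ n ^ i)⁻¹ * S⁻¹) := by
          unfold cm; simp only [mul_assoc]
      _ = Γ n ^ i * Γ n ^ i := by rw [h2]
  -- the union of the cyclic groups is 2-divisible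
  have hroot : ∀ n, ∀ g ∈ Subgroup.zpowers (Γ n), ∃ g' ∈ Subgroup.zpowers (Γ (n + 1)),
      g' * g' = g := by
    intro n g hg
    obtain ⟨i, rfl⟩ := Subgroup.mem_zpowers_iff.1 hg
    have h2N : 0 < 2 * (s n).N := by have := (s n).hN; omega
    have hdvd : 2 * (s n).N ∣ (s (n + 1)).N :=
      (Dvd.intro_left 2 (by ring)).trans (hs n).dvd
    obtain ⟨j, hj⟩ := Subgroup.mem_zpowers_iff.1 ((hs n).mem_zpowers (2 * (s n).N) h2N hdvd)
    have hsq : Γ (n + 1) ^ j * Γ (n + 1) ^ j = Γ n := by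
      apply Subtype.ext
      have h1 : ((Γ (n + 1) ^ j * Γ (n + 1) ^ j : Z) : T3 ≃ₘ⟮I3, I3⟯ T3)
          = (s (n + 1)).γ ^ j * (s (n + 1)).γ ^ j := by simp [Γ]
      rw [h1, hj, ← rot_add]
      show _ = (s n).γ
      rw [(hs n).rot_eq]
      congr 1
      have hNpos : (0 : ℝ) < (s n).N := by exact_mod_cast (s n).hN
      push_cast
      field_simp
      norm_num
    refine ⟨(Γ (n + 1) ^ j) ^ i, Subgroup.zpow_mem _ (Subgroup.zpow_mem_zpowers _ _) _, ?_⟩
    rw [← (Commute.refl (Γ (n + 1) ^ j)).mul_zpow, hsq]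
  have hiter : ∀ k n, ∀ g ∈ Subgroup.zpowers (Γ n), ∃ m, ∃ g' ∈ Subgroup.zpowers (Γ m),
      (cm S)^[k] g' = g := by
    intro k
    induction k with
    | zero => exact fun n g hg => ⟨n, g, hg, rfl⟩
    | succ k ih =>
      intro n g hg
      obtain ⟨m, g', hg', hk⟩ := ih n g hg
      obtain ⟨g'', hg'', h2⟩ := hroot m g' hg'
      refine ⟨m + 1, g'', hg'', ?_⟩
      rw [Function.iterate_succ_apply, hcm _ _ hg'', h2, hk]
  -- the wild elements
  let u : ℕ → T3 ≃ₘ⟮I3, I3⟯ T3 := fun n => rot (s (n + 1)).U (s (n + 1)).hU (1 / (2 * (s n).N))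
  have huK : ∀ n, toCM (u n) ∈ (fun g : Z =>
      toCM (g : T3 ≃ₘ⟮I3, I3⟯ T3)) '' K := by
    intro n
    have h2N : 0 < 2 * (s n).N := by have := (s n).hN; omega
    have hdvd : 2 * (s n).N ∣ (s (n + 1)).N :=
      (Dvd.intro_left 2 (by ring)).trans (hs n).dvd
    obtain ⟨j, hj⟩ := Subgroup.mem_zpowers_iff.1 ((hs n).mem_zpowers (2 * (s n).N) h2N hdvd)
    obtain ⟨m, g', hg', hk⟩ := hiter k₀ (n + 1) (Γ (n + 1) ^ j) (Subgroup.zpow_mem_zpowers _ _)
    have hgK := hK m g' hg'
    rw [hk] at hgK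
    refine ⟨_, hgK, ?_⟩
    apply congrArg toCM
    have h1 : ((Γ (n + 1) ^ j : Z) : T3 ≃ₘ⟮I3, I3⟯ T3) = (s (n + 1)).γ ^ j := by simp [Γ]
    rw [h1, hj]
    simp only [u]
    push_cast
    rfl
  have hK'c : IsCompact ((fun g : Z =>
      toCM (g : T3 ≃ₘ⟮I3, I3⟯ T3)) '' K) :=
    hKc.image (continuous_toCM.comp continuous_subtype_val)
  obtain ⟨h, _, ψ, hψ, hψt⟩ := hK'c.tendsto_subseq huK
  -- growth of N
  have hNgrow : ∀ n, n + 1 ≤ (s n).N := by
    intro n
    induction n with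
    | zero => have := (s 0).hN; omega
    | succ n ih =>
      have := Nat.le_of_dvd (s (n + 1)).hN (hs n).dvd
      omega
  have hhu : UniformContinuous h := CompactSpace.uniformContinuous_of_continuous h.continuous
  obtain ⟨δ, hδ, hδ'⟩ := Metric.uniformContinuous_iff.1 hhu (1 / 4) (by norm_num)
  have hev1 : ∀ᶠ n in atTop, dist (toCM (u (ψ n))) h < 1 / 4 :=
    (Metric.tendsto_nhds.1 hψt) (1 / 4) (by norm_num)
  obtain ⟨n₀, hn₀⟩ := exists_nat_gt (2 / δ)
  obtain ⟨n, hn1, hn2⟩ := (hev1.and (eventually_ge_atTop n₀)).exists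
  obtain ⟨y, y', hyy, hwild⟩ := (hs (ψ n)).wild
  have hNpos : (0 : ℝ) < (s (ψ n)).N := by exact_mod_cast (s (ψ n)).hN
  have hyδ : dist y y' < δ := by
    refine hyy.trans_lt ?_
    rw [div_lt_iff₀ hNpos]
    rw [div_lt_iff₀ hδ] at hn₀
    have h1 : n₀ ≤ (s (ψ n)).N := by
      have := hNgrow (ψ n)
      have := hψ.id_le n
      simp only [id] at this
      omega
    have h2 : (n₀ : ℝ) ≤ (s (ψ n)).N := by exact_mod_cast h1
    nlinarith
  have h1 : dist (h y) (h y') < 1 / 4 := hδ' hyδ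
  have h2 : dist (toCM (u (ψ n)) y) (h y) < 1 / 4 :=
    (ContinuousMap.dist_apply_le_dist y).trans_lt hn1
  have h3 : dist (toCM (u (ψ n)) y') (h y') < 1 / 4 :=
    (ContinuousMap.dist_apply_le_dist y').trans_lt hn1
  have h4 : 1 ≤ dist (toCM (u (ψ n)) y) (toCM (u (ψ n)) y') := hwild
  have h5 := dist_triangle4 (toCM (u (ψ n)) y) (h y) (h y') (toCM (u (ψ n)) y')
  rw [dist_comm (h y')] at h5
  linarith

end Pool.Agent.H324.TC
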